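import Mathlib
import Pool.Agent.helper76.FF2.All

/-!
# Sign patterns of the Liouville function over every finite field of even order

Let `F` be a finite field of even order and let `A i * f + B i` be finitely many pairwise
non-proportional linear forms over `F[X]`, with `A i` nonzero.  For every prescription of signs
and every large `n` there are many monic polynomials `f` of degree `n` for which the Liouville
function takes the prescribed values at all the forms at once; moreover `f` can be chosen so that
no form is divisible by the square of an irreducible polynomial unless this is forced by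
a congruence obstruction.  With `A i = 1` and with `B i` running over all polynomials of degree
less than `h` this gives constant blocks of every length for the Liouville function of `F[X]`.

The proof: the parity of the number of irreducible factors of a squarefree polynomial `G` over `F` is given by the
trace of the sum of `x y / (x + y) ^ 2` over the pairs of roots (Stickelberger, Berlekamp); this sum is
computed for the factors of `x + g + w ^ 4` as a function of `w`.
-/

namespace Pool.Agent.Results.MP_bbe200_nt.CharacteristicTwoPatterns

open Polynomial

/-- The Liouville function of `F[X]`: minus one to the number of irreducible factors of `f`,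
counted with multiplicity. -/
noncomputable def liouville {F : Type*} [Field F] (f : F[X]) : ℤ :=
  (-1) ^ (Multiset.card (UniqueFactorizationMonoid.factors f))

theorem result {F : Type*} [Field F] [Finite F] (heven : Even (Nat.card F))
    {ι : Type*} [Finite ι] (A B : ι → F[X]) (hA : ∀ i, A i ≠ 0)
    (hAB : ∀ i j, i ≠ j → A i * B j ≠ A j * B i) (σ : ι → ℤˣ) :
    ∃ c : ℕ, ∀ n : ℕ, c ≤ n → ∃ S : Finset F[X],
      Nat.card F ^ (n / 4 - c) ≤ S.card ∧
      ∀ f ∈ S, f.Monic ∧ f.natDegree = n ∧
        (∀ i, liouville (A i * f + B i) = (σ i : ℤ)) ∧
        ∀ π : F[X], Irreducible π → (∃ x : F[X], ∀ i, ¬ π ^ 2 ∣ A i * x + B i) →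
          ∀ i, ¬ π ^ 2 ∣ A i * f + B i := by
  classical
  have := Fintype.ofFinite F
  rw [Nat.card_eq_fintype_card] at heven ⊢
  have h2 : ringChar F = 2 := FiniteField.even_card_iff_char_two.mpr (Nat.even_iff.mp heven)
  have : CharP F 2 := by rw [← h2]; exact ringChar.charP F
  obtain ⟨k, ⟨e⟩⟩ := Finite.exists_equiv_fin ι
  obtain ⟨c, hc⟩ := Pool.Agent.FF2.ALL F k (fun i => A (e.symm i)) (fun i => B (e.symm i))
    (fun i => hA _) (fun i j hij => hAB _ _ (fun h => hij (e.symm.injective h)))
    (fun i => (σ (e.symm i) : ℤ)) (fun i => by
      rcases Int.units_eq_one_or (σ (e.symm i)) with h | h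
      · left; rw [h]; rfl
      · right; rw [h]; rfl)
  refine ⟨c, fun n hn => ?_⟩
  obtain ⟨S, hS, hS'⟩ := hc n hn
  refine ⟨S, hS, fun f hf => ?_⟩
  obtain ⟨h1, h3, h4, h5⟩ := hS' f hf
  refine ⟨h1, h3, fun i => ?_, fun π hπ hx i => ?_⟩
  · have := h4 (e i)
    simp only [Equiv.symm_apply_apply] at this
    exact this
  · obtain ⟨x, hx⟩ := hx
    have := h5 π hπ ⟨x, fun j => hx _⟩ (e i)
    simp only [Equiv.symm_apply_apply] at this
    exact this

end Pool.Agent.Results.MP_bbe200_nt.CharacteristicTwoPatterns
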