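import Mathlib
import Pool.Agent.helper21.BBE.Top

/-!
# Long constant runs of the Liouville function and odometer factors

Let `f` be a completely multiplicative function with values `1`, `-1` on the positive integers,
for example the Liouville function.  Let `X` be the orbit closure of `f` and `Y` the orbit closure
of `f(n) f(n+1)` (a factor of `X`).  The existence of constant blocks of every length in `f` is
shown to be equivalent to each of the following statements:

* `X` carries a totally ergodic measure (or, weaker, `Y` carries an ergodic measure which has no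
  `p`-adic odometer as a factor, for any prime `p`);
* `X` contains a totally minimal set (or, weaker, `Y` contains a minimal set which has no
  `p`-adic odometer as a topological factor, for any prime `p`).

Quantitative form: let every two-colouring of `{0, ..., l - 1}` have a monochromatic progression
with `k` terms, and let `f` have no constant block of length `k`.  Then every ergodic measure
on `X` or `Y`, and every minimal subset of `X` or `Y`, has the `p`-adic odometer as a factor for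
some prime `p` with `p (k - 1) < l`.  Here a system has the `p`-adic odometer as a factor if all
rotations `ℤ/p^j` are factors.
-/

namespace Pool.Agent.Results.MP_bbe200_nt.OdometerFactors

open MeasureTheory Set

/-- The Liouville function. -/
def liouville (n : ℕ) : ℤ := (-1) ^ ArithmeticFunction.cardFactors n

/-- `f` is completely multiplicative on the positive integers, with values `1` and `-1`. -/
def IsCM (f : ℕ → ℤ) : Prop :=
  (∀ n, 1 ≤ n → f n = 1 ∨ f n = -1) ∧ ∀ m n, 1 ≤ m → 1 ≤ n → f (m * n) = f m * f n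

/-- `f` takes one value on some `k` consecutive positive integers. -/
def HasBlock (f : ℕ → ℤ) (k : ℕ) : Prop := ∃ n, 1 ≤ n ∧ ∀ i < k, f (n + i) = f n

/-- Every colouring of `{0, ..., l - 1}` with two colours has a monochromatic arithmetic
progression with `k` terms. -/
def VDW (k l : ℕ) : Prop :=
  ∀ c : ℕ → Bool, ∃ i d, 1 ≤ d ∧ i + (k - 1) * d < l ∧ ∀ j < k, c (i + j * d) = c i

/-- The sequence `f(n) f(n+1)`. -/
def ratio (f : ℕ → ℤ) (n : ℕ) : ℤ := f n * f (n + 1)

/-- The shift of sequences. -/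
def shift (x : ℕ → ℤ) : ℕ → ℤ := fun i => x (i + 1)

/-- The orbit closure of `f`: the closure of the set of the sequences `(f(n), f(n+1), ...)`,
`n ≥ 1`, in the product topology. -/
def orbitClosure (f : ℕ → ℤ) : Set (ℕ → ℤ) :=
  closure {x | ∃ n, 1 ≤ n ∧ x = fun i => f (n + i)}

/-- The rotation by one of `ℤ/m` is a factor of the measure preserving system `(T, μ)`. -/
def CyclicFactor {Ω : Type*} [MeasurableSpace Ω] (T : Ω → Ω) (μ : Measure Ω) (m : ℕ) : Prop :=
  ∃ φ : Ω → ZMod m, Measurable φ ∧ ∀ᵐ x ∂μ, φ (T x) = φ x + 1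

/-- `M` is a minimal set of the map `T`: nonempty, closed, invariant, without smaller such sets. -/
def IsMin {X : Type*} [TopologicalSpace X] (T : X → X) (M : Set X) : Prop :=
  M.Nonempty ∧ IsClosed M ∧ MapsTo T M M ∧
    ∀ K ⊆ M, K.Nonempty → IsClosed K → MapsTo T K K → K = M

/-- The rotation by one of `ℤ/m` is a topological factor of `(M, T)`: there is a locally constant
map `φ` on `M` with `φ (T x) = φ x + 1`. -/
def TopFactor {X : Type*} [TopologicalSpace X] (T : X → X) (M : Set X) (m : ℕ) : Prop :=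
  ∃ φ : X → ZMod m, (∀ x ∈ M, ∃ U, IsOpen U ∧ x ∈ U ∧ ∀ y ∈ U ∩ M, φ y = φ x) ∧
    ∀ x ∈ M, φ (T x) = φ x + 1

theorem result :
    IsCM liouville ∧
    (∀ k, ∃ l, VDW k l) ∧
    ∀ f : ℕ → ℤ, IsCM f →
      [∀ k, HasBlock f k,
        ∃ μ : Measure (ℕ → ℤ), IsProbabilityMeasure μ ∧ μ (orbitClosure f)ᶜ = 0 ∧
          ∀ m, 1 ≤ m → Ergodic (shift^[m]) μ,
        ∃ μ : Measure (ℕ → ℤ), IsProbabilityMeasure μ ∧ μ (orbitClosure (ratio f))ᶜ = 0 ∧
          Ergodic shift μ ∧ ∀ p, p.Prime → ∃ j, ¬ CyclicFactor shift μ (p ^ j),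
        ∃ M ⊆ orbitClosure f, ∀ m, 1 ≤ m → IsMin (shift^[m]) M,
        ∃ M ⊆ orbitClosure (ratio f), IsMin shift M ∧
          ∀ p, p.Prime → ∃ j, ¬ TopFactor shift M (p ^ j)].TFAE ∧
      ∀ k l, VDW k l → ¬ HasBlock f k →
        (∀ μ : Measure (ℕ → ℤ), IsProbabilityMeasure μ →
          (μ (orbitClosure f)ᶜ = 0 ∨ μ (orbitClosure (ratio f))ᶜ = 0) → Ergodic shift μ →
            ∃ p, p.Prime ∧ p * (k - 1) < l ∧ ∀ j, CyclicFactor shift μ (p ^ j)) ∧
        ∀ M : Set (ℕ → ℤ), (M ⊆ orbitClosure f ∨ M ⊆ orbitClosure (ratio f)) → IsMin shift M →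
            ∃ p, p.Prime ∧ p * (k - 1) < l ∧ ∀ j, TopFactor shift M (p ^ j) := by
  refine ⟨⟨fun n _ => neg_one_pow_eq_or ℤ _, fun m n hm hn => ?_⟩,
    Pool.Agent.helper21.BBE.exists_VDW, fun f hf => ?_⟩
  · show (-1 : ℤ) ^ _ = (-1 : ℤ) ^ _ * (-1 : ℤ) ^ _
    rw [← pow_add, ArithmeticFunction.cardFactors_mul (by omega) (by omega)]
  have hmeas : ∀ k l, VDW k l → ¬ HasBlock f k →
      ∀ μ : Measure (ℕ → ℤ), IsProbabilityMeasure μ →
          (μ (orbitClosure f)ᶜ = 0 ∨ μ (orbitClosure (ratio f))ᶜ = 0) → Ergodic shift μ →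
            ∃ p, p.Prime ∧ p * (k - 1) < l ∧ ∀ j, CyclicFactor shift μ (p ^ j) := by
    intro k l hl hk μ h1 h2 h3
    rcases h2 with h2 | h2
    · have h6 : IsProbabilityMeasure (μ.map Pool.Agent.helper21.BBE.rmap) :=
        Measure.isProbabilityMeasure_map
          Pool.Agent.helper21.BBE.measurable_rmap.aemeasurable
      have h7 := Pool.Agent.helper21.BBE.push (m := 1) h2 h3
      obtain ⟨p, hp, hpl, hpj⟩ := Pool.Agent.helper21.BBE.prime_factor hf hl hk
        (μ.map Pool.Agent.helper21.BBE.rmap) h7.1 h7.2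
      exact ⟨p, hp, hpl, fun j => (hpj j).of_push⟩
    · exact Pool.Agent.helper21.BBE.prime_factor hf hl hk μ h3 h2
  have htop : ∀ k l, VDW k l → ¬ HasBlock f k →
      ∀ M : Set (ℕ → ℤ), (M ⊆ orbitClosure f ∨ M ⊆ orbitClosure (ratio f)) → IsMin shift M →
            ∃ p, p.Prime ∧ p * (k - 1) < l ∧ ∀ j, TopFactor shift M (p ^ j) := by
    intro k l hl hk M h2 h3
    rcases h2 with h2 | h2
    · obtain ⟨h4, h5, h6⟩ := Pool.Agent.helper21.BBE.IsMin.image hf h3 h2
      obtain ⟨p, hp, hpl, hpj⟩ := Pool.Agent.helper21.BBE.top_prime_factor hf hl hk h4 h5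
      exact ⟨p, hp, hpl, fun j => h6 _ (hpj j)⟩
    · exact Pool.Agent.helper21.BBE.top_prime_factor hf hl hk h3 h2
  refine ⟨?_, fun k l hl hk => ⟨hmeas k l hl hk, htop k l hl hk⟩⟩
  tfae_have 1 → 2 := fun h => Pool.Agent.helper21.BBE.totally_ergodic_of_blocks hf h
  tfae_have 2 → 3 := by
    rintro ⟨μ, h1, h2, h3⟩
    have h4 : Ergodic shift (μ.map Pool.Agent.helper21.BBE.rmap) :=
      (Pool.Agent.helper21.BBE.push h2 (h3 1 le_rfl)).1
    have h6 : IsProbabilityMeasure (μ.map Pool.Agent.helper21.BBE.rmap) :=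
      Measure.isProbabilityMeasure_map
        Pool.Agent.helper21.BBE.measurable_rmap.aemeasurable
    exact ⟨μ.map Pool.Agent.helper21.BBE.rmap, h6,
      (Pool.Agent.helper21.BBE.push h2 (h3 1 le_rfl)).2, h4, fun p hp => ⟨1, by
      rw [pow_one]
      exact Pool.Agent.helper21.BBE.not_cyclicFactor hp.two_le h4.toMeasurePreserving
        (Pool.Agent.helper21.BBE.push h2 (h3 p hp.one_lt.le)).1⟩⟩
  tfae_have 3 → 1 := by
    rintro ⟨μ, h1, h2, h3, h4⟩ k
    by_contra hk
    obtain ⟨l, hl⟩ := Pool.Agent.helper21.BBE.exists_VDW k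
    obtain ⟨p, hp, -, hpj⟩ := hmeas k l hl hk μ h1 (Or.inr h2) h3
    obtain ⟨j, hj⟩ := h4 p hp
    exact hj (hpj j)
  tfae_have 1 → 4 := by
    intro h
    obtain ⟨c, hc⟩ := Pool.Agent.helper21.BBE.const_mem_of_blocks hf h
    exact ⟨{fun _ => c}, singleton_subset_iff.mpr hc, fun m _ =>
      Pool.Agent.helper21.BBE.isMin_singleton (T := shift) rfl m⟩
  tfae_have 4 → 1 := by
    rintro ⟨M, h1, h2⟩ k
    by_contra hk
    obtain ⟨l, hl⟩ := Pool.Agent.helper21.BBE.exists_VDW k
    obtain ⟨p, hp, -, hpj⟩ := htop k l hl hk M (Or.inl h1) (h2 1 le_rfl)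
    have h3 := hpj 1
    rw [pow_one] at h3
    exact Pool.Agent.helper21.BBE.not_topFactor hp.two_le (h2 1 le_rfl) (h2 p hp.one_lt.le) h3
  tfae_have 1 → 5 := by
    intro h
    obtain ⟨c, hc⟩ := Pool.Agent.helper21.BBE.const_mem_of_blocks hf h
    have h1 : (fun _ : ℕ => c * c) ∈ orbitClosure (ratio f) :=
      Pool.Agent.helper21.BBE.rmap_mem hc
    refine ⟨{fun _ => c * c}, singleton_subset_iff.mpr h1,
      Pool.Agent.helper21.BBE.isMin_singleton (T := shift) rfl 1, fun p hp => ⟨1, ?_⟩⟩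
    rw [pow_one]
    exact Pool.Agent.helper21.BBE.not_topFactor hp.two_le
      (Pool.Agent.helper21.BBE.isMin_singleton (T := shift) rfl 1)
      (Pool.Agent.helper21.BBE.isMin_singleton (T := shift) rfl p)
  tfae_have 5 → 1 := by
    rintro ⟨M, h1, h2, h3⟩ k
    by_contra hk
    obtain ⟨l, hl⟩ := Pool.Agent.helper21.BBE.exists_VDW k
    obtain ⟨p, hp, -, hpj⟩ := htop k l hl hk M (Or.inr h1) h2
    obtain ⟨j, hj⟩ := h3 p hp
    exact hj (hpj j)
  tfae_finish

end Pool.Agent.Results.MP_bbe200_nt.OdometerFactors
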