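import Mathlib
import Pool.Agent.helper36.FF.L

/-!
# Sign patterns of the Liouville function over every finite field of odd order

Let `F` be a finite field of odd order and let `A i * f + B i` be finitely many pairwise
non-proportional linear forms over `F[X]`, with `A i` nonzero.  For every prescription of signs
and every large `n` there are many monic polynomials `f` of degree `n` for which the Liouville
function takes the prescribed values at all the forms at once; moreover `f` can be chosen so that
no form is divisible by the square of an irreducible polynomial unless this is forced by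
a congruence obstruction.  With `A i = 1` and with `B i` running over all polynomials of degree
less than `h` this gives constant blocks of every length for the Liouville function of `F[X]`.
-/

namespace Pool.Agent.Results.MP_bbe200_nt.PolynomialSignPatterns

open Polynomial

/-- The Liouville function of `F[X]`: minus one to the number of irreducible factors of `f`,
counted with multiplicity. -/
noncomputable def liouville {F : Type*} [Field F] (f : F[X]) : ℤ :=
  (-1) ^ (Multiset.card (UniqueFactorizationMonoid.factors f))

theorem result {F : Type*} [Field F] [Finite F] (hodd : Odd (Nat.card F))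
    {ι : Type*} [Finite ι] (A B : ι → F[X]) (hA : ∀ i, A i ≠ 0)
    (hAB : ∀ i j, i ≠ j → A i * B j ≠ A j * B i) (σ : ι → ℤˣ) :
    ∃ c : ℕ, ∀ n : ℕ, c ≤ n → ∃ S : Finset F[X],
      Nat.card F ^ (n / ringChar F - c) ≤ S.card ∧
      ∀ f ∈ S, f.Monic ∧ f.natDegree = n ∧
        (∀ i, liouville (A i * f + B i) = (σ i : ℤ)) ∧
        ∀ π : F[X], Irreducible π → (∃ x : F[X], ∀ i, ¬ π ^ 2 ∣ A i * x + B i) →
          ∀ i, ¬ π ^ 2 ∣ A i * f + B i := by
  classical
  have := Fintype.ofFinite F
  have := Fintype.ofFinite ι
  rw [Nat.card_eq_fintype_card] at hodd ⊢
  have hF : ringChar F ≠ 2 := by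
    intro h
    have h1 := FiniteField.even_card_iff_char_two.mp h
    rw [Nat.odd_iff] at hodd
    omega
  exact Pool.Agent.helper36.FF.linear_forms hF A B hA hAB (fun i => (σ i : ℤ)) (fun i => by
    rcases Int.units_eq_one_or (σ i) with h | h
    · left; rw [h]; rfl
    · right; rw [h]; rfl)

end Pool.Agent.Results.MP_bbe200_nt.PolynomialSignPatterns
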