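import Mathlib
import Pool.Agent.helper21.BBE.Avg
import Pool.Agent.helper21.BBE.Corr

/-!
# Long constant runs of the Liouville function and twisted correlations of even order

Let `f` be a completely multiplicative function with values `1`, `-1` on the positive integers,
for example the Liouville function.  The existence of constant blocks of every length is shown
to be equivalent to each of the following statements:

* for all `q`, `l` some word of length `l` occurs in `f` at positions in every class mod `q`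
  (or, weaker, only up to sign and inside a class modulo one fixed `Q`);
* the averages of all products `e(θ n) ∏ f(n + h)` with nonintegral rational `θ` are small on some
  long intervals (or, weaker, for an even number of factors `f(n + h)`, for `Q θ` nonintegral and
  for some probability weights on the positive integers);
* `1` is not a finite linear combination of those products (or, weaker, of those in the last
  parenthesis).

Quantitative form: let every two-colouring of `{0, ..., l - 1}` have a monochromatic progression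
with `k` terms, and let `f` have no constant block of length `k`.  Put
`M = ⌊(l - 1) / (k - 1)⌋`.  Then for every `Q ≥ 1` and every probability weight on the positive
integers the expectation of some product `e(b n / (Q M!)) ∏_{h ∈ H} f(n + h)` with `M! ∤ b`,
`|H|` even and `H ⊆ {0, ..., Q l - 1}` is at least `1 / (Q M! 2^l)` in absolute value.
-/

namespace Pool.Agent.Results.MP_bbe200_nt.TwistedCorrelations

/-- The Liouville function. -/
def liouville (n : ℕ) : ℤ := (-1) ^ ArithmeticFunction.cardFactors n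

/-- `f` is completely multiplicative on the positive integers, with values `1` and `-1`. -/
def IsCM (f : ℕ → ℤ) : Prop :=
  (∀ n, 1 ≤ n → f n = 1 ∨ f n = -1) ∧ ∀ m n, 1 ≤ m → 1 ≤ n → f (m * n) = f m * f n

/-- `f` takes one value on some `k` consecutive positive integers. -/
def HasBlock (f : ℕ → ℤ) (k : ℕ) : Prop := ∃ n, 1 ≤ n ∧ ∀ i < k, f (n + i) = f n

/-- Every colouring of `{0, ..., l - 1}` with two colours has a monochromatic arithmetic
progression with `k` terms. -/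
def VDW (k l : ℕ) : Prop :=
  ∀ c : ℕ → Bool, ∃ i d, 1 ≤ d ∧ i + (k - 1) * d < l ∧ ∀ j < k, c (i + j * d) = c i

/-- For `p = (θ, H)`: the twisted product `n ↦ e(θ n) ∏_{h ∈ H} f(n + h)`. -/
noncomputable def tw (f : ℕ → ℤ) (p : ℚ × Finset ℕ) (n : ℕ) : ℂ :=
  Complex.exp (2 * Real.pi * Complex.I * ((p.1 : ℂ) * n)) * ∏ h ∈ p.2, (f (n + h) : ℂ)

/-- For all pairs `(θ, H)` in `s` the number `Q θ` is not an integer. -/
def Outside (Q : ℕ) (s : Finset (ℚ × Finset ℕ)) : Prop :=
  ∀ p ∈ s, ∀ z : ℤ, (Q : ℚ) * p.1 ≠ z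

/-- For all pairs `(θ, H)` in `s` the number of elements of `H` is even. -/
def EvenSets (s : Finset (ℚ × Finset ℕ)) : Prop := ∀ p ∈ s, Even p.2.card

/-- On the positive integers, `1` is a complex linear combination of the twisted products
with `(θ, H)` in `s`. -/
def Comb (f : ℕ → ℤ) (s : Finset (ℚ × Finset ℕ)) : Prop :=
  ∃ c : ℚ × Finset ℕ → ℂ, ∀ n, 1 ≤ n → ∑ p ∈ s, c p * tw f p n = 1

/-- `ω` is a probability weight with finite support `T` on the positive integers. -/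
def IsWeight (T : Finset ℕ) (ω : ℕ → ℝ) : Prop :=
  (∀ n ∈ T, 1 ≤ n ∧ 0 ≤ ω n) ∧ ∑ n ∈ T, ω n = 1

theorem result :
    IsCM liouville ∧
    (∀ k, ∃ l, VDW k l) ∧
    ∀ f : ℕ → ℤ, IsCM f →
      [∀ k, HasBlock f k,
        ∀ q, 1 ≤ q → ∀ l, ∃ w : ℕ → ℤ, ∀ a, ∃ n, 1 ≤ n ∧ n ≡ a [MOD q] ∧
          ∀ i < l, f (n + i) = w i,
        ∃ Q, 1 ≤ Q ∧ ∀ q, 1 ≤ q → ∀ l, ∃ (w : ℕ → ℤ) (r : ℕ), ∀ a, a ≡ r [MOD Q] →
          ∃ n, 1 ≤ n ∧ n ≡ a [MOD Q * q] ∧ ∀ i < l, f (n + i) = f n * w i,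
        ∀ s, Outside 1 s → ∀ ε : ℝ, 0 < ε → ∀ N : ℕ, ∃ M L : ℕ, 1 ≤ M ∧ N < L ∧
          ∀ p ∈ s, ‖∑ n ∈ Finset.Ico M (M + L), tw f p n‖ ≤ ε * L,
        ∃ Q, 1 ≤ Q ∧ ∀ s, Outside Q s → EvenSets s → ∀ ε : ℝ, 0 < ε →
          ∃ (T : Finset ℕ) (ω : ℕ → ℝ), IsWeight T ω ∧
            ∀ p ∈ s, ‖∑ n ∈ T, (ω n : ℂ) * tw f p n‖ ≤ ε,
        ∀ s, Outside 1 s → ¬ Comb f s,
        ∃ Q, 1 ≤ Q ∧ ∀ s, Outside Q s → EvenSets s → ¬ Comb f s].TFAE ∧
      ∀ k l, VDW k l → ¬ HasBlock f k → ∀ Q, 1 ≤ Q → ∀ (T : Finset ℕ) (ω : ℕ → ℝ),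
        IsWeight T ω → ∃ (b : ℕ) (H : Finset ℕ), b < Q * ((l - 1) / (k - 1)).factorial ∧
          ¬ ((l - 1) / (k - 1)).factorial ∣ b ∧ H ⊆ Finset.range (Q * l) ∧ Even H.card ∧
          1 / (Q * ((l - 1) / (k - 1)).factorial * 2 ^ l : ℝ) ≤
            ‖∑ n ∈ T, (ω n : ℂ) * tw f ((b : ℚ) / (Q * ((l - 1) / (k - 1)).factorial), H) n‖ := by
  refine ⟨⟨fun n _ => neg_one_pow_eq_or ℤ _, fun m n hm hn => ?_⟩,
    Pool.Agent.helper21.BBE.exists_VDW, fun f hf => ⟨?_, ?_⟩⟩
  · show (-1 : ℤ) ^ _ = (-1 : ℤ) ^ _ * (-1 : ℤ) ^ _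
    rw [← pow_add, ArithmeticFunction.cardFactors_mul (by omega) (by omega)]
  · tfae_have 1 → 2 := fun h q hq l => Pool.Agent.helper21.BBE.words_of_blocks h q l hq
    tfae_have 2 → 3 := fun h => ⟨1, le_rfl, fun q hq l => by
      obtain ⟨w, hw⟩ := h q hq (l + 1)
      refine ⟨fun i => w 0 * w i, 0, fun a _ => ?_⟩
      obtain ⟨n, hn, hna, hnw⟩ := hw a
      rw [one_mul]
      refine ⟨n, hn, hna, fun i hi => ?_⟩
      have h0 := hnw 0 (by omega)
      rw [add_zero] at h0
      rw [hnw i (by omega), ← h0, ← mul_assoc]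
      rcases hf.1 n hn with h1 | h1 <;> rw [h1] <;> norm_num⟩
    tfae_have 3 → 1 := by
      rintro ⟨Q, hQ, h⟩ k
      exact Pool.Agent.helper21.BBE.blocks_of_words hf hQ h k
    tfae_have 1 → 4 := fun h s hs ε hε N =>
      Pool.Agent.helper21.BBE.averages_of_blocks hf h s hs hε N
    tfae_have 4 → 5 := fun h => ⟨1, le_rfl, fun s hs _ ε hε => by
      obtain ⟨M, L, hM, hL, hsm⟩ := h s hs ε hε 0
      obtain ⟨T, ω, h1, h2, h3⟩ :=
        Pool.Agent.helper21.BBE.weights_of_interval (f := f) hM hL hsm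
      exact ⟨T, ω, ⟨h1, h2⟩, h3⟩⟩
    tfae_have 4 → 6 := fun h s hs =>
      Pool.Agent.helper21.BBE.not_comb_of_weights (f := f) fun ε hε => by
        obtain ⟨M, L, hM, hL, hsm⟩ := h s hs ε hε 0
        exact Pool.Agent.helper21.BBE.weights_of_interval (f := f) hM hL hsm
    tfae_have 5 → 7 := by
      rintro ⟨Q, hQ, h⟩
      refine ⟨Q, hQ, fun s hs hev => Pool.Agent.helper21.BBE.not_comb_of_weights (f := f)
        fun ε hε => ?_⟩
      obtain ⟨T, ω, ⟨h1, h2⟩, h3⟩ := h s hs hev ε hε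
      exact ⟨T, ω, h1, h2, h3⟩
    tfae_have 6 → 7 := fun h => ⟨1, le_rfl, fun s hs _ => h s hs⟩
    tfae_have 7 → 3 := by
      rintro ⟨Q, hQ, h⟩
      exact ⟨Q, hQ, Pool.Agent.helper21.BBE.words_of_not_comb hf hQ h⟩
    tfae_finish
  · rintro k l hl hk Q hQ T ω ⟨h1, h2⟩
    exact Pool.Agent.helper21.BBE.large_correlation_level hf hl hk hQ T ω h1 h2

end Pool.Agent.Results.MP_bbe200_nt.TwistedCorrelations
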